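import Pool.Agent.Helper15.GS.GoalsD
import Pool.Agent.Helper27.HS.TRC

/-! # GS, LAG: pointwise linear algebra (packet 5130) -/

open Complex Matrix
open scoped ComplexConjugate ComplexOrder Matrix

namespace Pool.Agent.Helper84.GS

open Pool.Agent.Helper15.GS Pool.Agent.Helper27.HS

variable {n : ℕ}

/-- existence of the largest `k` values -/
theorem exists_top (f : Fin n → ℝ) (k : ℕ) (hk : k ≤ n) :
    ∃ K : Finset (Fin n), K.card = k ∧ ∀ i ∈ K, ∀ j ∉ K, f j ≤ f i := by
  induction k with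
  | zero => exact ⟨∅, rfl, by simp⟩
  | succ k ih =>
    obtain ⟨K, hc, hK⟩ := ih (by omega)
    have hne : (Kᶜ).Nonempty := by
      rw [← Finset.card_pos, Finset.card_compl, hc, Fintype.card_fin]
      omega
    obtain ⟨m, hm, hmax⟩ := Finset.exists_max_image Kᶜ f hne
    rw [Finset.mem_compl] at hm
    refine ⟨insert m K, by rw [Finset.card_insert_of_notMem hm, hc], ?_⟩
    intro i hi j hj
    rw [Finset.mem_insert, not_or] at hj
    rcases Finset.mem_insert.1 hi with rfl | hi
    · exact hmax j (Finset.mem_compl.2 hj.2)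
    · exact hK i hi j hj.2

/-- matrices diagonal in the basis `P` -/
noncomputable def FF (P P' : Matrix (Fin n) (Fin n) ℂ) (f : Fin n → ℝ) : Matrix (Fin n) (Fin n) ℂ :=
  P * diagonal (fun i => (f i : ℂ)) * P'

theorem FF_mul {P P' : Matrix (Fin n) (Fin n) ℂ} (h : P' * P = 1) (f g : Fin n → ℝ) :
    FF P P' f * FF P P' g = FF P P' (fun i => f i * g i) := by
  unfold FF
  calc P * diagonal (fun i => (f i : ℂ)) * P' * (P * diagonal (fun i => (g i : ℂ)) * P')
      = P * (diagonal (fun i => (f i : ℂ)) * (P' * P) * diagonal (fun i => (g i : ℂ))) * P' := by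
        simp only [Matrix.mul_assoc]
    _ = _ := by
        rw [h, Matrix.mul_one, diagonal_mul_diagonal]
        simp

theorem FF_sub (P P' : Matrix (Fin n) (Fin n) ℂ) (f g : Fin n → ℝ) :
    FF P P' f - FF P P' g = FF P P' (fun i => f i - g i) := by
  unfold FF
  rw [← Matrix.sub_mul, ← Matrix.mul_sub, diagonal_sub]
  simp

theorem FF_smul (P P' : Matrix (Fin n) (Fin n) ℂ) (c : ℝ) (f : Fin n → ℝ) :
    (c : ℂ) • FF P P' f = FF P P' (fun i => c * f i) := by
  unfold FF
  rw [← Matrix.smul_mul, ← Matrix.mul_smul, ← diagonal_smul]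
  congr 3
  funext i
  simp

theorem FF_trace {P P' : Matrix (Fin n) (Fin n) ℂ} (h : P' * P = 1) (f : Fin n → ℝ) :
    Matrix.trace (FF P P' f) = ((∑ i, f i : ℝ) : ℂ) := by
  unfold FF
  rw [Matrix.trace_mul_comm, ← Matrix.mul_assoc, h, Matrix.one_mul, Matrix.trace_diagonal]
  push_cast
  rfl

theorem det_PD (P : Matrix (Fin n) (Fin n) ℂ) (f : Fin n → ℝ) :
    (P * diagonal (fun i => (f i : ℂ)) * Pᴴ).det = ((Complex.normSq P.det * ∏ i, f i : ℝ) : ℂ) := by
  rw [det_mul, det_mul, det_diagonal, det_conjTranspose]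
  push_cast
  rw [← Complex.mul_conj]
  change P.det * (∏ i, (f i : ℂ)) * conj P.det = _
  ring

/-- trace of a product with the inverse of `m` -/
theorem trace_nonneg' {P' A : Matrix (Fin n) (Fin n) ℂ} (hA : A.PosSemidef) (f : Fin n → ℝ)
    (hf : ∀ i, 0 ≤ f i) :
    0 ≤ (Matrix.trace (A * (P'ᴴ * diagonal (fun i => (f i : ℂ)) * P'))).re := by
  have e : Matrix.trace (A * (P'ᴴ * diagonal (fun i => (f i : ℂ)) * P')) =
      ∑ i, (P' * A * P'ᴴ) i i * (f i : ℂ) := by
    calc Matrix.trace (A * (P'ᴴ * diagonal (fun i => (f i : ℂ)) * P'))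
        = Matrix.trace (P' * A * P'ᴴ * diagonal (fun i => (f i : ℂ))) := by
          rw [← Matrix.mul_assoc, Matrix.trace_mul_comm]
          simp only [Matrix.mul_assoc]
      _ = _ := by
          simp [Matrix.trace, Matrix.mul_diagonal]
  rw [e, Complex.re_sum]
  refine Finset.sum_nonneg fun i _ => ?_
  have h1 := (Complex.nonneg_iff.1 ((hA.mul_mul_conjTranspose_same P').diag_nonneg (i := i))).1
  rw [Complex.re_mul_ofReal]
  exact mul_nonneg h1 (hf i)

theorem lag : S_LAG := by
  intro n k H h Q B Y c C ε τ hkn hH hh hQ hc hC hε hτ hcH hCH hB hY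
  obtain ⟨P, P', μ, hPP, hPP', hhe, hQe⟩ := trc_simul h Q hh hQ.isHermitian
  have hμ : ∀ i, 0 < μ i := by
    intro i
    have h0 : 0 ≤ μ i := trc_posSemidef P P' μ hPP' (hQe ▸ hQ.posSemidef) i
    rcases h0.eq_or_lt with h1 | h1
    · exfalso
      have h2 := hQ.det_pos
      rw [hQe, det_PD, Finset.prod_eq_zero (Finset.mem_univ i) h1.symm] at h2
      simp at h2
    · exact h1
  have hPH : Pᴴ * P'ᴴ = 1 := by rw [← conjTranspose_mul, hPP', conjTranspose_one]
  have hPH' : P'ᴴ * Pᴴ = 1 := by rw [← conjTranspose_mul, hPP, conjTranspose_one]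
  have hadd : ∀ t : ℝ, Q + (t : ℂ) • h = P * diagonal (fun i => ((μ i + t : ℝ) : ℂ)) * Pᴴ := by
    intro t
    have e1 : (t : ℂ) • h = P * diagonal (fun _ => (t : ℂ)) * Pᴴ := by
      rw [hhe]
      have e2 : (diagonal (fun _ => (t : ℂ)) : Matrix (Fin n) (Fin n) ℂ) = (t : ℂ) • 1 := by
        rw [← diagonal_one, ← diagonal_smul]
        congr 1
        funext i
        simp
      rw [e2]
      simp
    rw [e1]
    conv_lhs => rw [hQe]
    rw [← Matrix.add_mul, ← Matrix.mul_add, diagonal_add]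
    simp
  -- the inverse of `m`
  have hm : (Q + (τ : ℂ) • h)⁻¹ = P'ᴴ * diagonal (fun i => (((μ i + τ)⁻¹ : ℝ) : ℂ)) * P' := by
    rw [hadd τ]
    refine Matrix.inv_eq_right_inv ?_
    calc P * diagonal (fun i => ((μ i + τ : ℝ) : ℂ)) * Pᴴ *
          (P'ᴴ * diagonal (fun i => (((μ i + τ)⁻¹ : ℝ) : ℂ)) * P')
        = P * (diagonal (fun i => ((μ i + τ : ℝ) : ℂ)) * (Pᴴ * P'ᴴ) *
            diagonal (fun i => (((μ i + τ)⁻¹ : ℝ) : ℂ))) * P' := by simp only [Matrix.mul_assoc]
      _ = P * 1 * P' := by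
          rw [hPH, Matrix.mul_one, diagonal_mul_diagonal, ← diagonal_one]
          congr 3
          funext i
          rw [← Complex.ofReal_mul, mul_inv_cancel₀ (by have := hμ i; positivity), Complex.ofReal_one]
      _ = 1 := by rw [Matrix.mul_one, hPP]
  have hhm : h * (Q + (τ : ℂ) • h)⁻¹ = FF P P' (fun i => (μ i + τ)⁻¹) := by
    rw [hm]
    conv_lhs => rw [hhe]
    unfold FF
    calc P * Pᴴ * (P'ᴴ * diagonal (fun i => (((μ i + τ)⁻¹ : ℝ) : ℂ)) * P')
        = P * ((Pᴴ * P'ᴴ) * diagonal (fun i => (((μ i + τ)⁻¹ : ℝ) : ℂ))) * P' := by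
          simp only [Matrix.mul_assoc]
      _ = _ := by rw [hPH, Matrix.one_mul]
  set y : Fin n → ℝ := fun i => τ * (μ i + τ)⁻¹ with hy
  have hYF : Y = FF P P' y := by
    rw [hY, hhm, FF_smul]
  have y0 : ∀ i, 0 ≤ y i := fun i => by
    have := hμ i
    show 0 ≤ τ * (μ i + τ)⁻¹
    positivity
  have y1 : ∀ i, y i ≤ 1 := fun i => by
    have := hμ i
    show τ * (μ i + τ)⁻¹ ≤ 1
    rw [← div_eq_mul_inv, div_le_one (by positivity)]
    linarith
  have trY : (Matrix.trace Y).re = ∑ i, y i := by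
    rw [hYF, FF_trace hPP', Complex.ofReal_re]
  have hS : Sqd Y = FF P P' (fun i => (y i * y i - y i) * (y i * y i - y i)) := by
    unfold Sqd
    rw [hYF, FF_mul hPP', FF_sub, FF_mul hPP']
  have trS : (Matrix.trace (Sqd Y)).re = ∑ i, (y i * y i - y i) * (y i * y i - y i) := by
    rw [hS, FF_trace hPP', Complex.ofReal_re]
  have trY0 : 0 ≤ (Matrix.trace Y).re := by
    rw [trY]
    exact Finset.sum_nonneg fun i _ => y0 i
  have trYn : (Matrix.trace Y).re ≤ n := by
    rw [trY]
    calc ∑ i, y i ≤ ∑ _i : Fin n, (1 : ℝ) := Finset.sum_le_sum fun i _ => y1 i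
      _ = n := by simp
  have inv0 : ∀ i, 0 ≤ (μ i + τ)⁻¹ := fun i => by
    have := hμ i
    positivity
  refine ⟨⟨trY0, trYn, ?_, ?_, ?_⟩, ?_⟩
  · rw [trS]
    exact Finset.sum_nonneg fun i _ => mul_self_nonneg _
  · rw [Matrix.smul_mul, Matrix.trace_smul, smul_eq_mul, Complex.re_ofReal_mul, hm]
    exact mul_nonneg hε.le (trace_nonneg' hH.posSemidef _ inv0)
  · rw [Matrix.smul_mul, Matrix.trace_smul, smul_eq_mul, Complex.re_ofReal_mul]
    have h1 : 0 ≤ (Matrix.trace (((C : ℂ) • h - H) * (Q + (τ : ℂ) • h)⁻¹)).re := by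
      rw [hm]
      exact trace_nonneg' hCH _ inv0
    rw [Matrix.sub_mul, Matrix.trace_sub, Matrix.smul_mul, Matrix.trace_smul, hhm, FF_trace hPP',
      Complex.sub_re, smul_eq_mul, Complex.re_ofReal_mul, Complex.ofReal_re] at h1
    have h2 : ∑ i, (μ i + τ)⁻¹ ≤ n * τ⁻¹ := by
      calc ∑ i, (μ i + τ)⁻¹ ≤ ∑ _i : Fin n, τ⁻¹ := by
            refine Finset.sum_le_sum fun i _ => ?_
            have := hμ i
            gcongr
            linarith
        _ = n * τ⁻¹ := by simp
    calc ε * (Matrix.trace (H * (Q + (τ : ℂ) • h)⁻¹)).re ≤ ε * (C * ∑ i, (μ i + τ)⁻¹) := by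
          gcongr
          linarith
      _ ≤ ε * (C * (n * τ⁻¹)) := by gcongr
      _ = _ := by rw [div_eq_mul_inv]; ring
  · intro δ s hδ hs r hr
    set D := (1 + (s : ℂ) • B).det.re with hD
    obtain ⟨K, hKc, hK⟩ := exists_top (fun i => (μ i)⁻¹) k hkn
    -- the determinant
    have hdet : ∏ i, (1 + s * c * ε * (μ i)⁻¹) ≤ D := by
      have hQu : IsUnit Q.det := (Matrix.isUnit_iff_isUnit_det Q).1 hQ.isUnit
      have e1 : (1 + (s : ℂ) • B) * Q = Q + ((s * ε : ℝ) : ℂ) • H := by
        rw [hB, Matrix.add_mul, Matrix.one_mul, smul_smul, Matrix.smul_mul, Matrix.mul_assoc,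
          Matrix.nonsing_inv_mul Q hQu, Matrix.mul_one]
        push_cast
        rfl
      have e2 : Q.det = ((Complex.normSq P.det * ∏ i, μ i : ℝ) : ℂ) := by
        conv_lhs => rw [hQe]
        exact det_PD P μ
      have e3 : D * (Complex.normSq P.det * ∏ i, μ i) = (Q + ((s * ε : ℝ) : ℂ) • H).det.re := by
        rw [← e1, det_mul, e2, Complex.re_mul_ofReal]
      have hPD : (Q + ((s * c * ε : ℝ) : ℂ) • h).PosDef :=
        Matrix.PosDef.add_posSemidef hQ (hh.posSemidef.smul (by
          exact_mod_cast (by positivity : (0 : ℝ) ≤ s * c * ε)))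
      have e4 : (Q + ((s * c * ε : ℝ) : ℂ) • h).det.re ≤ (Q + ((s * ε : ℝ) : ℂ) • H).det.re := by
        refine (trc (Q + ((s * c * ε : ℝ) : ℂ) • h) (Q + ((s * ε : ℝ) : ℂ) • H) hPD).2.2.2.1 ?_
        have e5 : Q + ((s * ε : ℝ) : ℂ) • H - (Q + ((s * c * ε : ℝ) : ℂ) • h) =
            ((s * ε : ℝ) : ℂ) • (H - (c : ℂ) • h) := by
          rw [smul_sub, smul_smul]
          have : ((s * c * ε : ℝ) : ℂ) = ((s * ε : ℝ) : ℂ) * (c : ℂ) := by push_cast; ring
          rw [this]
          abel
        rw [e5]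
        exact hcH.smul (by exact_mod_cast (by positivity : (0 : ℝ) ≤ s * ε))
      rw [hadd, det_PD, Complex.ofReal_re, ← e3] at e4
      have e6 : 0 < Complex.normSq P.det * ∏ i, μ i := by
        have := hQ.det_pos
        rw [e2] at this
        exact_mod_cast this
      have e7 : 0 < ∏ i, μ i := Finset.prod_pos fun i _ => hμ i
      have e8 : 0 < Complex.normSq P.det := by
        rcases (Complex.normSq_nonneg P.det).eq_or_lt with h0 | h0
        · rw [← h0] at e6; simp at e6
        · exact h0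
      have e9 : ∏ i, (μ i + s * c * ε) = (∏ i, (1 + s * c * ε * (μ i)⁻¹)) * ∏ i, μ i := by
        rw [← Finset.prod_mul_distrib]
        refine Finset.prod_congr rfl fun i _ => ?_
        have := (hμ i).ne'
        field_simp
      rw [e9] at e4
      refine le_of_mul_le_mul_right ?_ e6
      calc (∏ i, (1 + s * c * ε * (μ i)⁻¹)) * (Complex.normSq P.det * ∏ i, μ i)
          = Complex.normSq P.det * ((∏ i, (1 + s * c * ε * (μ i)⁻¹)) * ∏ i, μ i) := by ring
        _ ≤ _ := e4
    have f1 : ∀ i, 1 ≤ 1 + s * c * ε * (μ i)⁻¹ := fun i => by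
      have := hμ i
      have : 0 ≤ s * c * ε * (μ i)⁻¹ := by positivity
      linarith
    have hD0 : 0 ≤ D := by
      refine le_trans ?_ hdet
      exact Finset.prod_nonneg fun i _ => le_trans zero_le_one (f1 i)
    set E := δ + D / (δ ^ k * s ^ (k + 1)) with hE
    have hE0 : 0 ≤ E := by positivity
    have key : ∀ j ∉ K, c * ε * (μ j)⁻¹ ≤ E := by
      intro j hj
      set m := c * ε * (μ j)⁻¹ with hm'
      have hm0 : 0 < m := by
        have := hμ j
        positivity
      have g1 : (s * m) ^ (k + 1) ≤ D := by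
        refine le_trans ?_ hdet
        calc (s * m) ^ (k + 1) = ∏ _i ∈ insert j K, (s * m) := by
              rw [Finset.prod_const, Finset.card_insert_of_notMem hj, hKc]
          _ ≤ ∏ i ∈ insert j K, (1 + s * c * ε * (μ i)⁻¹) := by
              refine Finset.prod_le_prod (fun i _ => by positivity) fun i hi => ?_
              have h1 : (μ j)⁻¹ ≤ (μ i)⁻¹ := by
                rcases Finset.mem_insert.1 hi with rfl | hi
                · exact le_rfl
                · exact hK i hi j hj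
              have h2 : s * m ≤ s * c * ε * (μ i)⁻¹ := by
                rw [hm']
                calc s * (c * ε * (μ j)⁻¹) = s * c * ε * (μ j)⁻¹ := by ring
                  _ ≤ _ := by gcongr
              linarith
          _ ≤ ∏ i, (1 + s * c * ε * (μ i)⁻¹) := by
              rw [← Finset.prod_mul_prod_compl (insert j K)]
              have g0 : 0 ≤ ∏ i ∈ insert j K, (1 + s * c * ε * (μ i)⁻¹) :=
                Finset.prod_nonneg fun i _ => le_trans zero_le_one (f1 i)
              have g1 : 1 ≤ ∏ i ∈ (insert j K)ᶜ, (1 + s * c * ε * (μ i)⁻¹) := by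
                calc (1 : ℝ) = ∏ _i ∈ (insert j K)ᶜ, (1 : ℝ) := by simp
                  _ ≤ _ := Finset.prod_le_prod (fun _ _ => zero_le_one) fun i _ => f1 i
              exact le_mul_of_one_le_right g0 g1
      rcases le_or_gt m δ with h2 | h2
      · have : 0 ≤ D / (δ ^ k * s ^ (k + 1)) := by positivity
        rw [hE]
        linarith
      · have h3 : m ≤ D / (δ ^ k * s ^ (k + 1)) := by
          rw [le_div_iff₀ (by positivity)]
          calc m * (δ ^ k * s ^ (k + 1)) ≤ m * (m ^ k * s ^ (k + 1)) := by gcongr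
            _ = (s * m) ^ (k + 1) := by ring
            _ ≤ D := g1
        rw [hE]
        linarith
    have hell : ∑ j ∈ Kᶜ, y j ≤ r := by
      have g2 : ∀ j ∈ Kᶜ, y j ≤ τ / (ε * c) * E := by
        intro j hj
        have h1 := key j (Finset.mem_compl.1 hj)
        have h2 := hμ j
        calc y j = τ * (μ j + τ)⁻¹ := rfl
          _ ≤ τ * (μ j)⁻¹ := by
              gcongr
              linarith
          _ = τ / (ε * c) * (c * ε * (μ j)⁻¹) := by
              field_simp
          _ ≤ _ := by gcongr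
      calc ∑ j ∈ Kᶜ, y j ≤ ∑ _j ∈ Kᶜ, τ / (ε * c) * E := Finset.sum_le_sum g2
        _ = (Kᶜ.card : ℝ) * (τ / (ε * c) * E) := by rw [Finset.sum_const, nsmul_eq_mul]
        _ ≤ n * (τ / (ε * c) * E) := by
            have : (Kᶜ.card : ℝ) ≤ n := by
              exact_mod_cast (Finset.card_le_univ Kᶜ).trans (by simp)
            gcongr
        _ = r := by rw [hr]; ring
    have hsplit : ∑ i, y i = ∑ i ∈ K, y i + ∑ i ∈ Kᶜ, y i := (Finset.sum_add_sum_compl K y).symm
    have hKy : ∑ i ∈ K, (1 - y i) = k - ∑ i ∈ K, y i := by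
      rw [Finset.sum_sub_distrib]
      simp [hKc]
    have hKy0 : 0 ≤ ∑ i ∈ K, (1 - y i) := Finset.sum_nonneg fun i _ => by
      have := y1 i
      linarith
    have hell0 : 0 ≤ ∑ i ∈ Kᶜ, y i := Finset.sum_nonneg fun i _ => y0 i
    refine ⟨?_, ?_, ?_⟩
    · rw [trY, hsplit]
      linarith
    · rw [trS, trY]
      have g3 : ∀ i, (y i * y i - y i) * (y i * y i - y i) ≤ y i * (1 - y i) := by
        intro i
        have h1 := y0 i
        have h2 := y1 i
        have h3 : 0 ≤ y i * (1 - y i) := mul_nonneg h1 (by linarith)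
        have h4 : y i * (1 - y i) ≤ 1 := by nlinarith
        nlinarith
      calc ∑ i, (y i * y i - y i) * (y i * y i - y i) ≤ ∑ i, y i * (1 - y i) :=
            Finset.sum_le_sum fun i _ => g3 i
        _ = ∑ i ∈ K, y i * (1 - y i) + ∑ i ∈ Kᶜ, y i * (1 - y i) :=
            (Finset.sum_add_sum_compl K _).symm
        _ ≤ ∑ i ∈ K, (1 - y i) + ∑ i ∈ Kᶜ, y i := by
            refine add_le_add (Finset.sum_le_sum fun i _ => ?_) (Finset.sum_le_sum fun i _ => ?_)
            · have h1 := y0 i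
              have h2 := y1 i
              nlinarith
            · have h1 := y0 i
              have h2 := y1 i
              nlinarith
        _ ≤ _ := by
            rw [hKy, hsplit]
            linarith
    · rw [trY] at *
      have h1 : |∑ i, y i - (k : ℝ)| ≤ n := by
        rw [abs_le]
        have : (k : ℝ) ≤ n := by exact_mod_cast hkn
        have : (0 : ℝ) ≤ k := Nat.cast_nonneg k
        constructor <;> linarith
      have h2 : |∑ i, y i - (k : ℝ)| ≤ k - ∑ i, y i + 2 * r := by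
        rw [abs_le]
        constructor <;> linarith
      calc (∑ i, y i - (k : ℝ)) ^ 2 = |∑ i, y i - (k : ℝ)| * |∑ i, y i - (k : ℝ)| := by
            rw [← sq_abs]; ring
        _ ≤ n * (k - ∑ i, y i + 2 * r) := by
            gcongr

end Pool.Agent.Helper84.GS
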